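import Pool.Agent.W595.Bond.Sound
import Pool.Agent.W595.Bond.Top
import Pool.Agent.W595.Bond.C0
import Pool.Agent.W595.Bond.C1
import Pool.Agent.W595.Bond.C2
import Pool.Agent.W595.Bond.C3
import Pool.Agent.W595.Bond.C4
import Pool.Agent.W595.Bond.C5
import Pool.Agent.W595.Bond.C6
import Pool.Agent.W595.Bond.C7
import Pool.Agent.W595.Bond.C8
import Pool.Agent.W595.Bond.C9
import Pool.Agent.W595.Bond.C10
import Pool.Agent.W595.Bond.C11
import Pool.Agent.W595.Bond.C12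
import Pool.Agent.W595.Bond.C13
import Pool.Agent.W595.Bond.C14
import Pool.Agent.W595.Bond.C15
set_option autoImplicit false

/-! After the deletion of at most six edges six vertices dominate. -/

namespace Pool.Agent.W595.Bond

theorem hH : ∀ h ∈ HL, Claim h.1 h.2.1 h.2.2 := by
  unfold HL
  refine List.forall_mem_cons.2 ⟨ch0, ?_⟩
  refine List.forall_mem_cons.2 ⟨ch1, ?_⟩
  refine List.forall_mem_cons.2 ⟨ch2, ?_⟩
  refine List.forall_mem_cons.2 ⟨ch3, ?_⟩
  refine List.forall_mem_cons.2 ⟨ch4, ?_⟩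
  refine List.forall_mem_cons.2 ⟨ch5, ?_⟩
  refine List.forall_mem_cons.2 ⟨ch6, ?_⟩
  refine List.forall_mem_cons.2 ⟨ch7, ?_⟩
  refine List.forall_mem_cons.2 ⟨ch8, ?_⟩
  refine List.forall_mem_cons.2 ⟨ch9, ?_⟩
  refine List.forall_mem_cons.2 ⟨ch10, ?_⟩
  refine List.forall_mem_cons.2 ⟨ch11, ?_⟩
  refine List.forall_mem_cons.2 ⟨ch12, ?_⟩
  refine List.forall_mem_cons.2 ⟨ch13, ?_⟩
  refine List.forall_mem_cons.2 ⟨ch14, ?_⟩
  refine List.forall_mem_cons.2 ⟨ch15, ?_⟩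
  refine List.forall_mem_cons.2 ⟨ch16, ?_⟩
  refine List.forall_mem_cons.2 ⟨ch17, ?_⟩
  refine List.forall_mem_cons.2 ⟨ch18, ?_⟩
  refine List.forall_mem_cons.2 ⟨ch19, ?_⟩
  refine List.forall_mem_cons.2 ⟨ch20, ?_⟩
  refine List.forall_mem_cons.2 ⟨ch21, ?_⟩
  refine List.forall_mem_cons.2 ⟨ch22, ?_⟩
  refine List.forall_mem_cons.2 ⟨ch23, ?_⟩
  refine List.forall_mem_cons.2 ⟨ch24, ?_⟩
  refine List.forall_mem_cons.2 ⟨ch25, ?_⟩
  refine List.forall_mem_cons.2 ⟨ch26, ?_⟩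
  refine List.forall_mem_cons.2 ⟨ch27, ?_⟩
  refine List.forall_mem_cons.2 ⟨ch28, ?_⟩
  refine List.forall_mem_cons.2 ⟨ch29, ?_⟩
  refine List.forall_mem_cons.2 ⟨ch30, ?_⟩
  refine List.forall_mem_cons.2 ⟨ch31, ?_⟩
  refine List.forall_mem_cons.2 ⟨ch32, ?_⟩
  refine List.forall_mem_cons.2 ⟨ch33, ?_⟩
  refine List.forall_mem_cons.2 ⟨ch34, ?_⟩
  refine List.forall_mem_cons.2 ⟨ch35, ?_⟩
  refine List.forall_mem_cons.2 ⟨ch36, ?_⟩
  refine List.forall_mem_cons.2 ⟨ch37, ?_⟩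
  refine List.forall_mem_cons.2 ⟨ch38, ?_⟩
  refine List.forall_mem_cons.2 ⟨ch39, ?_⟩
  refine List.forall_mem_cons.2 ⟨ch40, ?_⟩
  refine List.forall_mem_cons.2 ⟨ch41, ?_⟩
  refine List.forall_mem_cons.2 ⟨ch42, ?_⟩
  refine List.forall_mem_cons.2 ⟨ch43, ?_⟩
  refine List.forall_mem_cons.2 ⟨ch44, ?_⟩
  refine List.forall_mem_cons.2 ⟨ch45, ?_⟩
  refine List.forall_mem_cons.2 ⟨ch46, ?_⟩
  refine List.forall_mem_cons.2 ⟨ch47, ?_⟩
  refine List.forall_mem_cons.2 ⟨ch48, ?_⟩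
  refine List.forall_mem_cons.2 ⟨ch49, ?_⟩
  refine List.forall_mem_cons.2 ⟨ch50, ?_⟩
  refine List.forall_mem_cons.2 ⟨ch51, ?_⟩
  refine List.forall_mem_cons.2 ⟨ch52, ?_⟩
  refine List.forall_mem_cons.2 ⟨ch53, ?_⟩
  refine List.forall_mem_cons.2 ⟨ch54, ?_⟩
  refine List.forall_mem_cons.2 ⟨ch55, ?_⟩
  refine List.forall_mem_cons.2 ⟨ch56, ?_⟩
  refine List.forall_mem_cons.2 ⟨ch57, ?_⟩
  refine List.forall_mem_cons.2 ⟨ch58, ?_⟩
  refine List.forall_mem_cons.2 ⟨ch59, ?_⟩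
  refine List.forall_mem_cons.2 ⟨ch60, ?_⟩
  refine List.forall_mem_cons.2 ⟨ch61, ?_⟩
  refine List.forall_mem_cons.2 ⟨ch62, ?_⟩
  intro h hh
  simp at hh

theorem claim600 : Claim 6 0 0 := top hH

theorem em_pow : ∀ a b : Fin 28, a ≠ b → em a b &&& (em a b - 1) = 0 := by decide +kernel

theorem em_lt : ∀ a b : Fin 28, em a b < 2 ^ 76 := by decide +kernel

theorem em_unique (a b : Fin 28) (hab : a ≠ b) (i j : ℕ) (hi : (em a b).testBit i = true)
    (hj : (em a b).testBit j = true) : i = j := by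
  have h0 : em a b ≠ 0 := by
    intro e; rw [e] at hi; simp at hi
  obtain ⟨e0, he⟩ := (Nat.and_sub_one_eq_zero_iff_isPowerOfTwo h0).1 (em_pow a b hab)
  rw [he, Nat.testBit_two_pow] at hi hj
  have h1 : e0 = i := by simpa using hi
  have h2 : e0 = j := by simpa using hj
  rw [← h1, ← h2]

theorem em_lt76 (a b : Fin 28) (i : ℕ) (hi : (em a b).testBit i = true) : i < 76 := by
  by_contra h
  have : (em a b).testBit i = false := by
    apply Nat.testBit_lt_two_pow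
    exact lt_of_lt_of_le (em_lt a b) (Nat.pow_le_pow_right (by norm_num) (by omega))
  rw [this] at hi
  exact absurd hi (by simp)

open Classical in
/-- the indices of the edge `e` -/
noncomputable def idx (e : Sym2 (Fin 28)) : Finset ℕ :=
  (Finset.range 76).filter (fun i => ∃ u v : Fin 28, e = s(u, v) ∧ u ≠ v ∧
    (em u v).testBit i = true)

theorem idx_card (e : Sym2 (Fin 28)) : (idx e).card ≤ 1 := by
  rw [Finset.card_le_one]
  intro i hi j hj
  simp only [idx, Finset.mem_filter] at hi hj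
  obtain ⟨_, u, v, h1, h2, h3⟩ := hi
  obtain ⟨_, u', v', h1', h2', h3'⟩ := hj
  rw [h1] at h1'
  rcases Sym2.eq_iff.1 h1' with ⟨e1, e2⟩ | ⟨e1, e2⟩
  · subst e1; subst e2; exact em_unique u v h2 i j h3 h3'
  · subst e1; subst e2
    have : em v u = em u v := Nat.land_comm _ _
    rw [this] at h3'
    exact em_unique u v h2 i j h3 h3'

theorem surv : Surv := by
  classical
  intro S hS
  have hcard : (S.biUnion idx).card ≤ 6 := by
    refine le_trans Finset.card_biUnion_le ?_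
    refine le_trans (Finset.sum_le_sum (fun e _ => idx_card e)) ?_
    simpa using hS
  have hv : Valid 6 0 0 (S.biUnion idx) := by
    refine ⟨?_, ?_, ?_, ?_⟩
    · intro i hi
      obtain ⟨e, _, he⟩ := Finset.mem_biUnion.1 hi
      simp only [idx, Finset.mem_filter] at he
      exact Finset.mem_range.1 he.1
    · intro i hi; simp at hi
    · intro i _; simp
    · exact le_trans (Finset.card_filter_le _ _) hcard
  obtain ⟨D, hD, hdom⟩ := claim600 _ hv
  refine ⟨D, hD, fun v => ?_⟩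
  rcases hdom v with h | ⟨u, hu, huv, i, hi, hiT⟩
  · exact Or.inl h
  · right
    refine ⟨u, hu, ?_⟩
    rw [SimpleGraph.deleteEdges_adj]
    refine ⟨⟨huv, ?_⟩, ?_⟩
    · intro e; rw [e] at hi; simp at hi
    · intro hmem
      apply hiT
      rw [Finset.mem_biUnion]
      refine ⟨s(u, v), by simpa using hmem, ?_⟩
      simp only [idx, Finset.mem_filter, Finset.mem_range]
      exact ⟨em_lt76 u v i hi, u, v, rfl, huv, hi⟩

end Pool.Agent.W595.Bond
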