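import Mathlib

set_option autoImplicit false

/-! The planar graph on 28 vertices with bondage number 7: definitions and the statements
of the parts of the proof of S08537. -/

namespace Pool.Agent.W595.Bond

/-- for each vertex the bit mask of its incident edges (76 edges) -/
def incL : List Nat :=
  [31, 481, 7712,
   57858, 458820, 3671168,
   29370368, 234897416, 805896448,
   3226472448, 12926877696, 51606847504,
   2131648053248, 33060527538176, 529990508609536,
   3976006381862912, 31529870316011520, 252280743969947648,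
   2018316320503758848, 16142027514158514176, 55380782209961033728,
   221721498329680969728, 888328271099389280256, 3546395556469427666944,
   14259477284165559255040, 24055707193621862154240, 58448508597548714295296,
   49621759572677203329024]

/-- bit mask of the edges incident to `v` -/
def inc (v : Fin 28) : Nat := incL.getD v.1 0

/-- bit mask of the edge between `u` and `v` (zero if there is none), for `u` and `v` distinct -/
def em (u v : Fin 28) : Nat := Nat.land (inc u) (inc v)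

/-- the graph -/
def gr : SimpleGraph (Fin 28) where
  Adj u v := u ≠ v ∧ em u v ≠ 0
  symm := ⟨fun u v h => ⟨h.1.symm, by
    have : em v u = em u v := Nat.land_comm _ _
    rw [this]; exact h.2⟩⟩
  loopless := ⟨fun u h => h.1 rfl⟩

instance : DecidableRel gr.Adj := fun u v => inferInstanceAs (Decidable (u ≠ v ∧ em u v ≠ 0))

/-- integer coordinates of a straight line drawing without crossings -/
def coord (v : Fin 28) : Int × Int :=
  [(-90, -109), (109, -90), (90, 109), (-109, 90), (6, -57), (57, 6), (-6, 57), (-57, -6), (39, -32), (32, 39), (-39, 32), (-32, -39), (18, 2), (-2, 18), (-18, -2), (2, -18), (5, 6), (-6, 5), (-5, -6), (6, -5), (-1, 7), (-7, -1), (1, -7), (7, 1), (-3, 2), (-2, -3), (3, -2), (2, 3)].getD v.1 (0, 0)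

/-- seven edges whose deletion raises the domination number -/
def E0 : Finset (Sym2 (Fin 28)) :=
  {s(0, 1), s(0, 3), s(0, 4), s(0, 7), s(0, 11), s(4, 8), s(4, 15)}

/-- BOND-DRAW: the graph has a drawing without crossings. -/
def Draw : Prop :=
  ∃ (p : Fin 28 → ℝ × ℝ) (γ : ∀ u v : Fin 28, Path (p u) (p v)),
    Function.Injective p ∧
    (∀ u v : Fin 28, gr.Adj u v → Function.Injective (⇑(γ u v))) ∧
    (∀ u v : Fin 28, gr.Adj u v → ∀ t : unitInterval, t ≠ 0 → t ≠ 1 →
      ∀ w : Fin 28, γ u v t ≠ p w) ∧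
    (∀ u v x y : Fin 28, gr.Adj u v → gr.Adj x y → s(u, v) ≠ s(x, y) →
      ∀ a b : unitInterval, a ≠ 0 → a ≠ 1 → b ≠ 0 → b ≠ 1 →
        γ u v a ≠ γ x y b)

/-- BOND-DOM, first part: no five vertices dominate. -/
def Dom5 : Prop :=
  ∀ D : Finset (Fin 28), D.card ≤ 5 → ∃ v, v ∉ D ∧ ∀ u ∈ D, ¬ gr.Adj u v

/-- BOND-DOM, second part: no six vertices dominate after the deletion of `E0`. -/
def Dom7 : Prop :=
  ∀ D : Finset (Fin 28), D.card ≤ 6 →
    ∃ v, v ∉ D ∧ ∀ u ∈ D, ¬ (gr.deleteEdges (↑E0 : Set (Sym2 (Fin 28)))).Adj u v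

/-- main part: after the deletion of at most six edges six vertices dominate. -/
def Surv : Prop :=
  ∀ S : Finset (Sym2 (Fin 28)), S.card ≤ 6 →
    ∃ D : Finset (Fin 28), D.card = 6 ∧
      ∀ v, v ∈ D ∨ ∃ u ∈ D, (gr.deleteEdges (↑S : Set (Sym2 (Fin 28)))).Adj u v

/-- BOND-FIN: the statement of S08537, with the graph as a witness. -/
def Fin8537 : Prop :=
    ∃ (V : Type) (_ : Fintype V) (G : SimpleGraph V),
      (∃ (p : V → ℝ × ℝ) (γ : ∀ u v : V, Path (p u) (p v)),
        Function.Injective p ∧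
        (∀ u v : V, G.Adj u v → Function.Injective (⇑(γ u v))) ∧
        (∀ u v : V, G.Adj u v → ∀ t : unitInterval, t ≠ 0 → t ≠ 1 →
          ∀ w : V, γ u v t ≠ p w) ∧
        (∀ u v x y : V, G.Adj u v → G.Adj x y → s(u, v) ≠ s(x, y) →
          ∀ a b : unitInterval, a ≠ 0 → a ≠ 1 → b ≠ 0 → b ≠ 1 →
            γ u v a ≠ γ x y b)) ∧
      (∃ E : Finset (Sym2 V), (↑E : Set (Sym2 V)) ⊆ G.edgeSet ∧ E.card ≤ 8 ∧
        sInf {n : ℕ | ∃ D : Finset V, D.card = n ∧
            ∀ v : V, v ∈ D ∨ ∃ u ∈ D, G.Adj u v} <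
          sInf {n : ℕ | ∃ D : Finset V, D.card = n ∧
            ∀ v : V, v ∈ D ∨ ∃ u ∈ D, (G.deleteEdges (↑E : Set (Sym2 V))).Adj u v}) ∧
      (∀ E : Finset (Sym2 V), (↑E : Set (Sym2 V)) ⊆ G.edgeSet → E.card ≤ 6 →
        ¬ (sInf {n : ℕ | ∃ D : Finset V, D.card = n ∧
            ∀ v : V, v ∈ D ∨ ∃ u ∈ D, G.Adj u v} <
          sInf {n : ℕ | ∃ D : Finset V, D.card = n ∧
            ∀ v : V, v ∈ D ∨ ∃ u ∈ D, (G.deleteEdges (↑E : Set (Sym2 V))).Adj u v}))

end Pool.Agent.W595.Bond

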