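import Pool.Agent.W595.Bond.Gr

set_option autoImplicit false

/-! Checker for the branching certificate of the bondage number. -/

namespace Pool.Agent.W595.Bond

/-- union of the incident edge masks of the vertices in the bit set `d` -/
noncomputable def incD (l : List Nat) : Nat → Nat :=
  List.rec (motive := fun _ => Nat → Nat) (fun _ => 0)
    (fun i _ ih d => Bool.rec (ih (Nat.div d 2)) (Nat.lor i (ih (Nat.div d 2)))
      (Nat.beq (Nat.mod d 2) 1)) l

/-- masks of the edges between a vertex outside `d` and `d` -/
noncomputable def msk (l : List Nat) : Nat → Nat → List Nat :=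
  List.rec (motive := fun _ => Nat → Nat → List Nat) (fun _ _ => [])
    (fun i _ ih d I => Bool.rec (Nat.land i I :: ih (Nat.div d 2) I) (ih (Nat.div d 2) I)
      (Nat.beq (Nat.mod d 2) 1)) l

noncomputable def masks (d : Nat) : List Nat := msk incL d (incD incL d)

/-- number of bits among the lowest `k` bits of `d` -/
noncomputable def pop (k : Nat) : Nat → Nat :=
  Nat.rec (motive := fun _ => Nat → Nat) (fun _ => 0)
    (fun _ ih d => Nat.add (Nat.mod d 2) (ih (Nat.div d 2))) k

/-- clear the highest bit -/
noncomputable def clr (a : Nat) : Nat := Nat.xor a (Nat.shiftLeft 1 (Nat.log2 a))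

/-- `sub1 r a = r - |a| + 1`, or `0` if `|a| > r` -/
noncomputable def sub1 (r : Nat) : Nat → Nat :=
  Nat.rec (motive := fun _ => Nat → Nat)
    (fun a => Bool.rec 0 1 (Nat.beq a 0))
    (fun r ih a => Bool.rec (ih (clr a)) (Nat.succ (Nat.succ r)) (Nat.beq a 0)) r

/-- no mask is contained in `F` -/
noncomputable def chk0 (F : Nat) (ms : List Nat) : Bool :=
  List.rec (motive := fun _ => Bool) true
    (fun m _ ih => Bool.rec ih false (Nat.beq (Nat.land m F) m)) ms

/-- `0` if a mask is contained in `F`, otherwise `1 +` the union of the masks having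
exactly one element outside `F` and of `K`-/
noncomputable def kset (F : Nat) (ms : List Nat) : Nat → Nat :=
  List.rec (motive := fun _ => Nat → Nat) (fun K => Nat.succ K)
    (fun m _ ih K =>
      Nat.rec 0
        (fun a' _ =>
          Bool.rec (ih K) (ih (Nat.lor K (Nat.succ a'))) (Nat.beq (Nat.land (Nat.succ a') a') 0))
        (Nat.xor m (Nat.land m F))) ms

/-- `d` is the bit mask of a set with six elements -/
@[irreducible] noncomputable def six (d : Nat) : Bool := Nat.beq (pop 28 d) 6

/-- the next entry of the certificate -/
@[irreducible] noncomputable def dg (st : Nat) : Nat := Nat.mod st 268435456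

/-- the rest of the certificate -/
@[irreducible] noncomputable def rs (st : Nat) : Nat := Nat.div st 268435456

/-- nodes with budget one -/
noncomputable def r1 (fuel : Nat) : Nat → Nat → Nat → Nat :=
  Nat.rec (motive := fun _ => Nat → Nat → Nat → Nat) (fun _ _ _ => 0)
    (fun _ ih F cur st =>
      Bool.rec
        (Nat.rec 0 (fun d _ =>
          Bool.rec 0
            (Nat.rec 0 (fun K _ => ih F (Nat.land cur K) (rs st))
              (kset F (masks d) 0))
            (six d)) (dg st))
        (Nat.succ st) (Nat.beq cur 0)) fuel

/-- first pass: masks with exactly one element outside `F` -/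
noncomputable def pass1 (g : Nat → Nat → Nat → Nat → Nat) (r F : Nat)
    (k : Nat → Nat → Nat) (ms : List Nat) : Nat → Nat → Nat :=
  List.rec (motive := fun _ => Nat → Nat → Nat) (fun X st => k X st)
    (fun m _ ih X st =>
      Nat.rec 0
        (fun a' _ =>
          Bool.rec (ih X st)
            (Bool.rec (ih X st)
              (Nat.rec 0 (fun s _ => ih (Nat.lor X (Nat.succ a')) s)
                (g (Nat.pred r) (Nat.lor F (Nat.succ a')) X st))
              (Nat.beq (Nat.land X (Nat.succ a')) 0))
            (Nat.beq (Nat.land (Nat.succ a') a') 0))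
        (Nat.xor m (Nat.land m F))) ms

/-- second pass -/
noncomputable def pass2 (g : Nat → Nat → Nat → Nat → Nat) (r F X : Nat)
    (ms : List Nat) : Nat → Nat :=
  List.rec (motive := fun _ => Nat → Nat) (fun st => Nat.succ st)
    (fun m _ ih st =>
      Nat.rec (ih st)
        (fun r' _ =>
          Bool.rec (ih st)
            (Nat.rec 0 (fun s _ => ih s)
              (g r' (Nat.lor F (Nat.xor m (Nat.land m F))) X st))
            (Nat.beq (Nat.land X (Nat.xor m (Nat.land m F))) 0))
        (sub1 r (Nat.xor m (Nat.land m F)))) ms

noncomputable def full : Nat := 75557863725914323419135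

/-- membership in a list of triples -/
noncomputable def memH (H : List (Nat × Nat × Nat)) (r F X : Nat) : Bool :=
  List.rec (motive := fun _ => Bool) false
    (fun h _ ih => Bool.rec ih true
      (Nat.beq h.1 r && (Nat.beq h.2.1 F && Nat.beq h.2.2 X))) H

noncomputable def go (H : List (Nat × Nat × Nat)) (fuel : Nat) : Nat → Nat → Nat → Nat → Nat :=
  Nat.rec (motive := fun _ => Nat → Nat → Nat → Nat → Nat) (fun _ _ _ _ => 0)
    (fun _ ih r F X st =>
      Bool.rec
        (Nat.rec
          -- r = 0
          (Nat.rec 0 (fun d _ =>
            Bool.rec 0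
              (Bool.rec 0 (Nat.succ (rs st)) (chk0 F (masks d)))
              (six d)) (dg st))
          (fun r0 _ => Nat.rec
            -- r = 1
            (Nat.rec 0 (fun c _ => r1 20 F (Nat.succ c) st) (Nat.xor full (Nat.land full X)))
            -- r >= 2
            (fun _ _ =>
              Nat.rec 0 (fun d _ =>
                Bool.rec 0
                  (pass1 ih r F (fun X' s => pass2 ih r F X' (masks d) s)
                    (masks d) X (rs st))
                  (six d)) (dg st)) r0) r)
        (Nat.succ st)
        (memH H r F X)) fuel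

end Pool.Agent.W595.Bond

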