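import Pool.Agent.W595.Bond.Base
set_option autoImplicit false

/-! Soundness of the checker. -/

namespace Pool.Agent.W595.Bond

/-- all bits of `a` are in `T` -/
def Sub (a : Nat) (T : Finset ℕ) : Prop := ∀ i, a.testBit i = true → i ∈ T

/-- no bit of `X` is in `T` -/
def Dis (X : Nat) (T : Finset ℕ) : Prop := ∀ i ∈ T, X.testBit i = false

/-- the elements of `T` outside `F` -/
def U (F : Nat) (T : Finset ℕ) : Finset ℕ := T.filter (fun i => F.testBit i = false)

/-- six vertices dominate after the deletion of the edges with an index in `T` -/
def Alive (T : Finset ℕ) : Prop :=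
  ∃ D : Finset (Fin 28), D.card = 6 ∧
    ∀ v, v ∈ D ∨ ∃ u ∈ D, u ≠ v ∧ ∃ i, (em u v).testBit i = true ∧ i ∉ T

def Valid (r F X : Nat) (T : Finset ℕ) : Prop :=
  (∀ i ∈ T, i < 76) ∧ Sub F T ∧ Dis X T ∧ (U F T).card ≤ r

def Claim (r F X : Nat) : Prop := ∀ T : Finset ℕ, Valid r F X T → Alive T

theorem incD_spec (l : List Nat) : ∀ (d i : Nat), (incD l d).testBit i = true →
    ∃ j, ∃ h : j < l.length, d.testBit j = true ∧ (l[j]).testBit i = true := by
  induction l with
  | nil =>
    intro d i h
    exact absurd h (by show ¬ ((0 : Nat).testBit i = true); simp)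
  | cons a l ih =>
    intro d i h
    have e : incD (a :: l) d = (Bool.rec (incD l (Nat.div d 2)) (Nat.lor a (incD l (Nat.div d 2)))
      (Nat.beq (Nat.mod d 2) 1) : Nat) := rfl
    rw [e] at h
    have key : (incD l (Nat.div d 2)).testBit i = true →
        ∃ j, ∃ h : j < (a :: l).length, d.testBit j = true ∧ ((a :: l)[j]).testBit i = true := by
      intro h
      obtain ⟨j, hj, h1, h2⟩ := ih _ _ h
      refine ⟨j + 1, by simpa using hj, ?_, by simpa using h2⟩
      rw [Nat.testBit_succ]; exact h1
    cases hb : Nat.beq (Nat.mod d 2) 1 with
    | false => rw [hb] at h; exact key h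
    | true =>
      rw [hb] at h
      have h' : (a ||| incD l (Nat.div d 2)).testBit i = true := h
      rw [Nat.testBit_or, Bool.or_eq_true] at h'
      rcases h' with h' | h'
      · refine ⟨0, by simp, ?_, by simpa using h'⟩
        have : d % 2 = 1 := Nat.eq_of_beq_eq_true hb
        rw [Nat.testBit_zero]; simp [this]
      · exact key h'

theorem msk_spec (l : List Nat) : ∀ (d I j : Nat) (h : j < l.length), d.testBit j = false →
    Nat.land (l[j]) I ∈ msk l d I := by
  induction l with
  | nil => intro d I j h; exact absurd h (by simp)
  | cons a l ih =>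
    intro d I j h hd
    have e : msk (a :: l) d I = (Bool.rec (Nat.land a I :: msk l (Nat.div d 2) I)
      (msk l (Nat.div d 2) I) (Nat.beq (Nat.mod d 2) 1) : List Nat) := rfl
    rw [e]
    cases j with
    | zero =>
      have h2 : Nat.beq (Nat.mod d 2) 1 = false := by
        rw [Nat.testBit_zero] at hd
        have : ¬ d % 2 = 1 := by simpa using hd
        cases hb : Nat.beq (Nat.mod d 2) 1 with
        | false => rfl
        | true => exact absurd (Nat.eq_of_beq_eq_true hb) this
      rw [h2]
      show Nat.land a I ∈ Nat.land a I :: msk l (Nat.div d 2) I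
      exact List.mem_cons_self
    | succ j =>
      have h1 : j < l.length := by simpa using h
      have h2 : (Nat.div d 2).testBit j = false := by
        rw [Nat.testBit_succ] at hd; exact hd
      have h3 := ih (Nat.div d 2) I j h1 h2
      cases hb : Nat.beq (Nat.mod d 2) 1 with
      | false =>
        show Nat.land l[j] I ∈ Nat.land a I :: msk l (Nat.div d 2) I
        exact List.mem_cons_of_mem _ h3
      | true => exact h3

theorem pop_spec (k : Nat) : ∀ d : Nat,
    pop k d = ∑ j ∈ Finset.range k, (if d.testBit j = true then 1 else 0) := by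
  induction k with
  | zero => intro d; rfl
  | succ k ih =>
    intro d
    have e : pop (k + 1) d = d % 2 + pop k (d / 2) := rfl
    rw [e, Finset.sum_range_succ', ih, add_comm]
    congr 1
    · apply Finset.sum_congr rfl
      intro j _
      rw [Nat.testBit_succ]
    · rw [Nat.testBit_zero]
      rcases Nat.mod_two_eq_zero_or_one d with h | h <;> simp [h]

/-- the vertex set with bit mask `d` -/
def vset (d : Nat) : Finset (Fin 28) := Finset.univ.filter (fun v => d.testBit v.1 = true)

theorem vset_card (d : Nat) : (vset d).card = pop 28 d := by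
  rw [pop_spec, vset, Finset.card_filter, ← Fin.sum_univ_eq_sum_range
    (fun j => if d.testBit j = true then 1 else 0) 28]

theorem len28 : incL.length = 28 := rfl

theorem inc_eq (v : Fin 28) : inc v = incL[v.1]'(by rw [len28]; exact v.2) := by
  unfold inc
  rw [List.getD_eq_getElem]

theorem alive_or (d : Nat) (hd : pop 28 d = 6) (T : Finset ℕ) (hT : ¬ Alive T) :
    ∃ m ∈ masks d, Sub m T := by
  by_contra hc
  push Not at hc
  apply hT
  refine ⟨vset d, by rw [vset_card]; exact hd, ?_⟩
  intro v
  by_cases hv : d.testBit v.1 = true
  · left; simp [vset, hv]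
  · right
    have hv' : d.testBit v.1 = false := by simpa using hv
    have hm := msk_spec incL d (incD incL d) v.1 (by rw [len28]; exact v.2) hv'
    have h1 := hc _ hm
    unfold Sub at h1
    push Not at h1
    obtain ⟨i, hi, hiT⟩ := h1
    have hi' : (incL[v.1]'(by rw [len28]; exact v.2) &&& incD incL d).testBit i = true := hi
    rw [Nat.testBit_and, Bool.and_eq_true] at hi'
    obtain ⟨j, hj, h2, h3⟩ := incD_spec _ _ _ hi'.2
    have hj' : j < 28 := by rw [len28] at hj; exact hj
    refine ⟨⟨j, hj'⟩, by simp [vset, h2], ?_, i, ?_, hiT⟩
    · intro e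
      apply hv
      rw [← e]; exact h2
    · show (inc ⟨j, hj'⟩ &&& inc v).testBit i = true
      rw [Nat.testBit_and, Bool.and_eq_true]
      refine ⟨?_, ?_⟩
      · rw [inc_eq]; exact h3
      · rw [inc_eq]; exact hi'.1

theorem tb_diff (m F i : Nat) : (Nat.xor m (Nat.land m F)).testBit i =
    (m.testBit i && !F.testBit i) := by
  have : (Nat.xor m (Nat.land m F)).testBit i = (m ^^^ (m &&& F)).testBit i := rfl
  rw [this, Nat.testBit_xor, Nat.testBit_and]
  cases m.testBit i <;> cases F.testBit i <;> rfl

theorem tb_lor (m F i : Nat) : (Nat.lor m F).testBit i = (m.testBit i || F.testBit i) :=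
  Nat.testBit_or m F i

theorem tb_land (m F i : Nat) : (Nat.land m F).testBit i = (m.testBit i && F.testBit i) :=
  Nat.testBit_and m F i

theorem exists_bit (a : Nat) (h : a ≠ 0) : ∃ i, a.testBit i = true :=
  Nat.exists_testBit_of_ne_zero h

/-- the bits of the difference are outside `F` and in `T` -/
theorem diff_sub (m F : Nat) (T : Finset ℕ) (h : Sub m T) :
    Sub (Nat.xor m (Nat.land m F)) (U F T) := by
  intro i hi
  rw [tb_diff, Bool.and_eq_true] at hi
  simp only [U, Finset.mem_filter]
  exact ⟨h i hi.1, by simpa using hi.2⟩

/-- extending `F` -/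
theorem valid_ext (r r' F X a : Nat) (T : Finset ℕ) (hv : Valid r F X T)
    (ha : Sub a (U F T)) (hc : ((U F T).filter (fun i => a.testBit i = false)).card ≤ r') :
    Valid r' (Nat.lor F a) X T := by
  obtain ⟨h1, h2, h3, h4⟩ := hv
  refine ⟨h1, ?_, h3, ?_⟩
  · intro i hi
    rw [tb_lor, Bool.or_eq_true] at hi
    rcases hi with hi | hi
    · exact h2 i hi
    · exact (Finset.mem_filter.1 (ha i hi)).1
  · refine le_trans (Finset.card_le_card ?_) hc
    intro i hi
    simp only [U, Finset.mem_filter] at hi ⊢
    rw [tb_lor] at hi
    have : F.testBit i = false ∧ a.testBit i = false := by simpa using hi.2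
    exact ⟨⟨hi.1, this.1⟩, this.2⟩

theorem sub1_spec (r : Nat) : ∀ (a : Nat) (V : Finset ℕ), V.card ≤ r → Sub a V →
    ∃ r', sub1 r a = r' + 1 ∧ (V.filter (fun i => a.testBit i = false)).card ≤ r' := by
  induction r with
  | zero =>
    intro a V hV ha
    have hV' : V = ∅ := by
      apply Finset.card_eq_zero.1; omega
    have ha0 : a = 0 := by
      by_contra h
      obtain ⟨i, hi⟩ := exists_bit a h
      have := ha i hi
      rw [hV'] at this
      simp at this
    subst ha0
    refine ⟨0, rfl, ?_⟩
    rw [hV']; simp
  | succ r ih =>
    intro a V hV ha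
    by_cases h0 : a = 0
    · subst h0
      refine ⟨r + 1, rfl, ?_⟩
      exact le_trans (Finset.card_filter_le _ _) hV
    · have e : sub1 (r + 1) a = sub1 r (clr a) := by
        show (Bool.rec (sub1 r (clr a)) (Nat.succ (Nat.succ r)) (Nat.beq a 0) : Nat) = _
        have : Nat.beq a 0 = false := by
          cases hb : Nat.beq a 0 with
          | false => rfl
          | true => exact absurd (Nat.eq_of_beq_eq_true hb) h0
        rw [this]
      rw [e]
      have hh : a.testBit a.log2 = true := Nat.testBit_log2 h0
      have hclr : ∀ i, (clr a).testBit i = (a.testBit i && decide (i ≠ a.log2)) := by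
        intro i
        have : clr a = a ^^^ (1 <<< a.log2) := rfl
        rw [this, Nat.testBit_xor, Nat.one_shiftLeft, Nat.testBit_two_pow]
        by_cases hi : a.log2 = i
        · subst hi; simp [hh]
        · have hi' : i ≠ a.log2 := fun h => hi h.symm
          simp [hi, hi']
      have hV2 : (V.erase a.log2).card ≤ r := by
        rw [Finset.card_erase_of_mem (ha _ hh)]; omega
      obtain ⟨r', h1, h2⟩ := ih (clr a) (V.erase a.log2) hV2 (by
        intro i hi
        rw [hclr, Bool.and_eq_true] at hi
        exact Finset.mem_erase.2 ⟨by simpa using hi.2, ha i hi.1⟩)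
      refine ⟨r', h1, le_trans (Finset.card_le_card ?_) h2⟩
      intro i hi
      rw [Finset.mem_filter] at hi ⊢
      have hne : i ≠ a.log2 := by
        intro e; rw [e] at hi; rw [hh] at hi; exact absurd hi.2 (by simp)
      refine ⟨Finset.mem_erase.2 ⟨hne, hi.1⟩, ?_⟩
      rw [hclr, hi.2]; rfl

theorem six_spec {d : Nat} (h : six d = true) : pop 28 d = 6 := by
  unfold six at h
  exact Nat.eq_of_beq_eq_true h

/-- nodes with budget zero -/
theorem chk0_spec (F : Nat) (ms : List Nat) : chk0 F ms = true → ∀ m ∈ ms, Nat.land m F ≠ m := by
  induction ms with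
  | nil => intro _ m hm; simp at hm
  | cons a ms ih =>
    intro h m hm
    have e : chk0 F (a :: ms) = (Bool.rec (chk0 F ms) false (Nat.beq (Nat.land a F) a) : Bool) := rfl
    rw [e] at h
    cases hb : Nat.beq (Nat.land a F) a with
    | true => rw [hb] at h; exact absurd h (by simp)
    | false =>
      rw [hb] at h
      rcases List.mem_cons.1 hm with h1 | h1
      · subst h1
        intro h2
        have : Nat.beq (Nat.land m F) m = true := by rw [h2]; exact Nat.beq_refl m
        rw [this] at hb; exact absurd hb (by simp)
      · exact ih h m h1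

theorem claim0 (d F X : Nat) (hd : pop 28 d = 6) (h : chk0 F (masks d) = true) :
    Claim 0 F X := by
  intro T hT
  by_contra hA
  obtain ⟨m, hm, hs⟩ := alive_or d hd T hA
  apply chk0_spec F _ h m hm
  obtain ⟨_, h2, _, h4⟩ := hT
  have hU : U F T = ∅ := Finset.card_eq_zero.1 (by omega)
  apply Nat.eq_of_testBit_eq
  intro i
  rw [tb_land]
  cases hmi : m.testBit i with
  | false => rfl
  | true =>
    have hi : i ∈ T := hs i hmi
    cases hF : F.testBit i with
    | true => rfl
    | false =>
      have : i ∈ U F T := Finset.mem_filter.2 ⟨hi, hF⟩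
      rw [hU] at this; simp at this

theorem kset_spec (F : Nat) (ms : List Nat) : ∀ (K s : Nat), kset F ms K = s + 1 →
    (∀ i, K.testBit i = true → s.testBit i = true) ∧
    ∀ m ∈ ms, Nat.xor m (Nat.land m F) ≠ 0 ∧
      ∀ i, Nat.xor m (Nat.land m F) = 2 ^ i → s.testBit i = true := by
  induction ms with
  | nil =>
    intro K s h
    have h' : K + 1 = s + 1 := h
    have : K = s := by omega
    subst this
    exact ⟨fun i hi => hi, fun m hm => by simp at hm⟩
  | cons m0 ms ih =>
    intro K s h
    have e : kset F (m0 :: ms) K = (Nat.rec 0 (fun a' _ =>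
          Bool.rec (kset F ms K) (kset F ms (Nat.lor K (Nat.succ a')))
            (Nat.beq (Nat.land (Nat.succ a') a') 0)) (Nat.xor m0 (Nat.land m0 F)) : Nat) := rfl
    rw [e] at h
    cases hx : Nat.xor m0 (Nat.land m0 F) with
    | zero => rw [hx] at h; exact absurd h (by simp)
    | succ a' =>
      rw [hx] at h
      have h' : (Bool.rec (kset F ms K) (kset F ms (Nat.lor K (Nat.succ a')))
            (Nat.beq (Nat.land (Nat.succ a') a') 0) : Nat) = s + 1 := h
      cases hb : Nat.beq (Nat.land (Nat.succ a') a') 0 with
      | false =>
        rw [hb] at h'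
        obtain ⟨h1, h2⟩ := ih K s h'
        refine ⟨h1, ?_⟩
        intro m hm
        rcases List.mem_cons.1 hm with hm | hm
        · subst hm
          refine ⟨by rw [hx]; simp, ?_⟩
          intro i hi
          exfalso
          rw [hx] at hi
          have hz : (a' + 1) &&& a' = 0 := by
            have : (2 ^ i) &&& (2 ^ i - 1) = 0 := by
              rw [Nat.and_two_pow_sub_one_eq_mod, Nat.mod_self]
            rw [← hi] at this
            simpa using this
          have : Nat.beq (Nat.land (Nat.succ a') a') 0 = true := by
            have h0 : Nat.land (Nat.succ a') a' = 0 := hz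
            rw [h0]; rfl
          rw [this] at hb; exact absurd hb (by simp)
        · exact h2 m hm
      | true =>
        rw [hb] at h'
        obtain ⟨h1, h2⟩ := ih _ s h'
        refine ⟨fun i hi => h1 i (by rw [tb_lor, hi]; rfl), ?_⟩
        intro m hm
        rcases List.mem_cons.1 hm with hm | hm
        · subst hm
          refine ⟨by rw [hx]; simp, ?_⟩
          intro i hi
          rw [hx] at hi
          apply h1
          rw [tb_lor]
          have : (Nat.succ a').testBit i = true := by
            have e2 : Nat.succ a' = 2 ^ i := hi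
            rw [e2]; exact Nat.testBit_two_pow_self
          rw [this]; simp
        · exact h2 m hm

/-- one evaluation at budget one -/
theorem kstep (d F K : Nat) (T : Finset ℕ) (hd : pop 28 d = 6)
    (hk : kset F (masks d) 0 = K + 1) (hU : (U F T).card ≤ 1) (hA : ¬ Alive T) :
    ∃ i, U F T = {i} ∧ K.testBit i = true := by
  obtain ⟨m, hm, hs⟩ := alive_or d hd T hA
  obtain ⟨_, h2⟩ := kset_spec F _ 0 K hk
  obtain ⟨h3, h4⟩ := h2 m hm
  obtain ⟨i, hi⟩ := exists_bit _ h3
  have hsub := diff_sub m F T hs
  have hiU := hsub i hi
  have hUi : U F T = {i} := by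
    apply Finset.eq_singleton_iff_unique_mem.2
    refine ⟨hiU, fun j hj => ?_⟩
    exact Finset.card_le_one.1 hU j hj i hiU
  refine ⟨i, hUi, h4 i ?_⟩
  apply Nat.eq_of_testBit_eq
  intro j
  rw [Nat.testBit_two_pow]
  by_cases hj : (Nat.xor m (Nat.land m F)).testBit j = true
  · have := hsub j hj
    rw [hUi, Finset.mem_singleton] at this
    rw [hj, this]; simp
  · have hj' : (Nat.xor m (Nat.land m F)).testBit j = false := by simpa using hj
    rw [hj']
    have : i ≠ j := fun e => hj (e ▸ hi)
    simp [this]

theorem r1_spec (fuel : Nat) : ∀ (F cur st s : Nat) (T : Finset ℕ),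
    r1 fuel F cur st = s + 1 → (U F T).card ≤ 1 → ¬ Alive T →
    (cur ≠ 0 ∨ (U F T).Nonempty) → (∀ i ∈ U F T, cur.testBit i = true) → False := by
  induction fuel with
  | zero =>
    intro F cur st s T h
    exact absurd h (by show ¬ ((0 : Nat) = s + 1); omega)
  | succ fuel ih =>
    intro F cur st s T h hU hA hne hcur
    have e : r1 (fuel + 1) F cur st = (Bool.rec
        (Nat.rec 0 (fun d _ =>
          Bool.rec 0
            (Nat.rec 0 (fun K _ => r1 fuel F (Nat.land cur K) (rs st))
              (kset F (masks d) 0))
            (six d)) (dg st))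
        (Nat.succ st) (Nat.beq cur 0) : Nat) := rfl
    rw [e] at h
    cases hc : Nat.beq cur 0 with
    | true =>
      have hc0 : cur = 0 := Nat.eq_of_beq_eq_true hc
      rcases hne with h1 | h1
      · exact h1 hc0
      · obtain ⟨i, hi⟩ := h1
        have := hcur i hi
        rw [hc0] at this
        simp at this
    | false =>
      rw [hc] at h
      cases hm : dg st with
      | zero => rw [hm] at h; exact absurd h (by simp)
      | succ d =>
        rw [hm] at h
        have h' : (Bool.rec 0
            (Nat.rec 0 (fun K _ => r1 fuel F (Nat.land cur K) (rs st))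
              (kset F (masks d) 0))
            (six d) : Nat) = s + 1 := h
        cases hp : six d with
        | false => rw [hp] at h'; exact absurd h' (by simp)
        | true =>
          rw [hp] at h'
          have hd : pop 28 d = 6 := six_spec hp
          have h'' : (Nat.rec 0 (fun K _ => r1 fuel F (Nat.land cur K) (rs st))
              (kset F (masks d) 0) : Nat) = s + 1 := h'
          cases hk : kset F (masks d) 0 with
          | zero => rw [hk] at h''; exact absurd h'' (by simp)
          | succ K =>
            rw [hk] at h''
            obtain ⟨i, hi, hKi⟩ := kstep d F K T hd hk hU hA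
            refine ih F (Nat.land cur K) (rs st) s T h'' hU hA (Or.inr ?_) ?_
            · rw [hi]; exact Finset.singleton_nonempty i
            · intro j hj
              have hj2 := hj
              rw [hi, Finset.mem_singleton] at hj2
              subst hj2
              rw [tb_land, hcur j hj, hKi]; rfl

theorem claim1 (F X st s : Nat)
    (h : (Nat.rec 0 (fun c _ => r1 20 F (Nat.succ c) st) (Nat.xor full (Nat.land full X)) : Nat)
      = s + 1) : Claim 1 F X := by
  intro T hT
  by_contra hA
  cases hc : Nat.xor full (Nat.land full X) with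
  | zero => rw [hc] at h; exact absurd h (by simp)
  | succ c =>
    rw [hc] at h
    have h' : r1 20 F (Nat.succ c) st = s + 1 := h
    refine r1_spec 20 F (Nat.succ c) st s T h' hT.2.2.2 hA (Or.inl (by simp)) ?_
    intro i hi
    have hiT : i ∈ T := (Finset.mem_filter.1 hi).1
    have e : Nat.succ c = Nat.xor full (Nat.land full X) := hc.symm
    rw [e, tb_diff, hT.2.2.1 i hiT]
    have : full = 2 ^ 76 - 1 := by unfold full; norm_num
    rw [this, Nat.testBit_two_pow_sub_one]
    simp [hT.1 i hiT]

theorem beq_zero_false {a : Nat} (h : Nat.beq a 0 = false) : a ≠ 0 := by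
  intro e; rw [e] at h; exact absurd h (by decide)

theorem pass1_spec (g : Nat → Nat → Nat → Nat → Nat) (r F : Nat) (k : Nat → Nat → Nat)
    (hg : ∀ r F X st s, g r F X st = s + 1 → Claim r F X)
    (T : Finset ℕ) (hA : ¬ Alive T) (ms : List Nat) :
    ∀ (X st s : Nat), Valid (r + 1) F X T → pass1 g (r + 1) F k ms X st = s + 1 →
      ∃ X' st', k X' st' = s + 1 ∧ Valid (r + 1) F X' T := by
  induction ms with
  | nil => intro X st s hv h; exact ⟨X, st, h, hv⟩
  | cons m0 ms ih =>
    intro X st s hv h
    have e : pass1 g (r + 1) F k (m0 :: ms) X st = (Nat.rec 0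
        (fun a' _ =>
          Bool.rec (pass1 g (r + 1) F k ms X st)
            (Bool.rec (pass1 g (r + 1) F k ms X st)
              (Nat.rec 0 (fun s _ => pass1 g (r + 1) F k ms (Nat.lor X (Nat.succ a')) s)
                (g (Nat.pred (r + 1)) (Nat.lor F (Nat.succ a')) X st))
              (Nat.beq (Nat.land X (Nat.succ a')) 0))
            (Nat.beq (Nat.land (Nat.succ a') a') 0))
        (Nat.xor m0 (Nat.land m0 F)) : Nat) := rfl
    rw [e] at h
    cases hx : Nat.xor m0 (Nat.land m0 F) with
    | zero => rw [hx] at h; exact absurd h (by simp)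
    | succ a' =>
      rw [hx] at h
      have h1 : (Bool.rec (pass1 g (r + 1) F k ms X st)
            (Bool.rec (pass1 g (r + 1) F k ms X st)
              (Nat.rec 0 (fun s _ => pass1 g (r + 1) F k ms (Nat.lor X (Nat.succ a')) s)
                (g (Nat.pred (r + 1)) (Nat.lor F (Nat.succ a')) X st))
              (Nat.beq (Nat.land X (Nat.succ a')) 0))
            (Nat.beq (Nat.land (Nat.succ a') a') 0) : Nat) = s + 1 := h
      cases hb : Nat.beq (Nat.land (Nat.succ a') a') 0 with
      | false => rw [hb] at h1; exact ih X st s hv h1
      | true =>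
        rw [hb] at h1
        have h2 : (Bool.rec (pass1 g (r + 1) F k ms X st)
              (Nat.rec 0 (fun s _ => pass1 g (r + 1) F k ms (Nat.lor X (Nat.succ a')) s)
                (g (Nat.pred (r + 1)) (Nat.lor F (Nat.succ a')) X st))
              (Nat.beq (Nat.land X (Nat.succ a')) 0) : Nat) = s + 1 := h1
        cases hb2 : Nat.beq (Nat.land X (Nat.succ a')) 0 with
        | false => rw [hb2] at h2; exact ih X st s hv h2
        | true =>
          rw [hb2] at h2
          have h3 : (Nat.rec 0 (fun s _ => pass1 g (r + 1) F k ms (Nat.lor X (Nat.succ a')) s)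
                (g r (Nat.lor F (Nat.succ a')) X st) : Nat) = s + 1 := h2
          cases hgv : g r (Nat.lor F (Nat.succ a')) X st with
          | zero => rw [hgv] at h3; exact absurd h3 (by simp)
          | succ s1 =>
            rw [hgv] at h3
            have hcl := hg _ _ _ _ _ hgv
            refine ih (Nat.lor X (Nat.succ a')) s1 s ?_ h3
            obtain ⟨v1, v2, v3, v4⟩ := hv
            refine ⟨v1, v2, ?_, v4⟩
            intro i hi
            rw [tb_lor, v3 i hi, Bool.false_or]
            by_contra hbit
            have hbit' : (Nat.succ a').testBit i = true := by simpa using hbit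
            have hpow : (Nat.succ a').isPowerOfTwo := by
              apply (Nat.and_sub_one_eq_zero_iff_isPowerOfTwo (n := Nat.succ a') (by simp)).1
              have hz := Nat.eq_of_beq_eq_true hb
              exact hz
            obtain ⟨e0, he0⟩ := hpow
            have hie : e0 = i := by
              rw [he0, Nat.testBit_two_pow] at hbit'
              simpa using hbit'
            subst hie
            apply hA
            apply hcl T
            have hiF : F.testBit e0 = false := by
              have hbx : (Nat.xor m0 (Nat.land m0 F)).testBit e0 = true := by rw [hx]; exact hbit'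
              rw [tb_diff, Bool.and_eq_true] at hbx
              simpa using hbx.2
            have hiU : e0 ∈ U F T := Finset.mem_filter.2 ⟨hi, hiF⟩
            refine valid_ext (r + 1) r F X (Nat.succ a') T ⟨v1, v2, v3, v4⟩ ?_ ?_
            · intro j hj
              rw [he0, Nat.testBit_two_pow] at hj
              have : e0 = j := by simpa using hj
              rw [← this]; exact hiU
            · have hlt : ((U F T).filter (fun i => (Nat.succ a').testBit i = false)).card
                  < (U F T).card := by
                apply Finset.card_lt_card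
                rw [Finset.filter_ssubset]
                exact ⟨e0, hiU, by rw [hbit']; simp⟩
              omega

theorem pass2_spec (g : Nat → Nat → Nat → Nat → Nat) (r F X : Nat)
    (hg : ∀ r F X st s, g r F X st = s + 1 → Claim r F X)
    (T : Finset ℕ) (hA : ¬ Alive T) (hv : Valid r F X T) (ms : List Nat) :
    ∀ (st s : Nat), pass2 g r F X ms st = s + 1 → ∀ m ∈ ms, ¬ Sub m T := by
  induction ms with
  | nil => intro st s _ m hm; simp at hm
  | cons m0 ms ih =>
    intro st s h m hm
    have e : pass2 g r F X (m0 :: ms) st = (Nat.rec (pass2 g r F X ms st)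
        (fun r' _ =>
          Bool.rec (pass2 g r F X ms st)
            (Nat.rec 0 (fun s _ => pass2 g r F X ms s)
              (g r' (Nat.lor F (Nat.xor m0 (Nat.land m0 F))) X st))
            (Nat.beq (Nat.land X (Nat.xor m0 (Nat.land m0 F))) 0))
        (sub1 r (Nat.xor m0 (Nat.land m0 F))) : Nat) := rfl
    rw [e] at h
    cases hs1 : sub1 r (Nat.xor m0 (Nat.land m0 F)) with
    | zero =>
      rw [hs1] at h
      rcases List.mem_cons.1 hm with h1 | h1
      · subst h1
        intro hs
        obtain ⟨r', hr', _⟩ := sub1_spec r _ (U F T) hv.2.2.2 (diff_sub m F T hs)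
        rw [hs1] at hr'
        omega
      · exact ih st s h m h1
    | succ r' =>
      rw [hs1] at h
      have h2 : (Bool.rec (pass2 g r F X ms st)
            (Nat.rec 0 (fun s _ => pass2 g r F X ms s)
              (g r' (Nat.lor F (Nat.xor m0 (Nat.land m0 F))) X st))
            (Nat.beq (Nat.land X (Nat.xor m0 (Nat.land m0 F))) 0) : Nat) = s + 1 := h
      cases hb : Nat.beq (Nat.land X (Nat.xor m0 (Nat.land m0 F))) 0 with
      | false =>
        rw [hb] at h2
        rcases List.mem_cons.1 hm with h1 | h1
        · subst h1
          intro hs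
          have hne : Nat.land X (Nat.xor m (Nat.land m F)) ≠ 0 := beq_zero_false hb
          obtain ⟨i, hi⟩ := exists_bit _ hne
          rw [tb_land, Bool.and_eq_true] at hi
          have hiU := diff_sub m F T hs i hi.2
          have := hv.2.2.1 i (Finset.mem_filter.1 hiU).1
          rw [this] at hi
          exact absurd hi.1 (by simp)
        · exact ih st s h2 m h1
      | true =>
        rw [hb] at h2
        have h3 : (Nat.rec 0 (fun s _ => pass2 g r F X ms s)
              (g r' (Nat.lor F (Nat.xor m0 (Nat.land m0 F))) X st) : Nat) = s + 1 := h2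
        cases hgv : g r' (Nat.lor F (Nat.xor m0 (Nat.land m0 F))) X st with
        | zero => rw [hgv] at h3; exact absurd h3 (by simp)
        | succ s1 =>
          rw [hgv] at h3
          rcases List.mem_cons.1 hm with h1 | h1
          · subst h1
            intro hs
            obtain ⟨r'', hr'', hc⟩ := sub1_spec r _ (U F T) hv.2.2.2 (diff_sub m F T hs)
            rw [hs1] at hr''
            have : r' = r'' := by omega
            subst this
            exact hA (hg _ _ _ _ _ hgv T
              (valid_ext r r' F X _ T hv (diff_sub m F T hs) hc))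
          · exact ih s1 s h3 m h1

theorem memH_spec (H : List (Nat × Nat × Nat)) (r F X : Nat)
    (hH : ∀ h ∈ H, Claim h.1 h.2.1 h.2.2) : memH H r F X = true → Claim r F X := by
  induction H with
  | nil => intro h; exact absurd h (by show ¬ (false = true); simp)
  | cons h0 H ih =>
    intro h
    have e : memH (h0 :: H) r F X = (Bool.rec (memH H r F X) true
      (Nat.beq h0.1 r && (Nat.beq h0.2.1 F && Nat.beq h0.2.2 X)) : Bool) := rfl
    rw [e] at h
    cases hb : (Nat.beq h0.1 r && (Nat.beq h0.2.1 F && Nat.beq h0.2.2 X)) with
    | false =>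
      rw [hb] at h
      exact ih (fun h hh => hH h (List.mem_cons_of_mem _ hh)) h
    | true =>
      rw [Bool.and_eq_true, Bool.and_eq_true] at hb
      have h1 := Nat.eq_of_beq_eq_true hb.1
      have h2 := Nat.eq_of_beq_eq_true hb.2.1
      have h3 := Nat.eq_of_beq_eq_true hb.2.2
      have := hH h0 List.mem_cons_self
      rw [h1, h2, h3] at this
      exact this

theorem go_spec (H : List (Nat × Nat × Nat)) (hH : ∀ h ∈ H, Claim h.1 h.2.1 h.2.2)
    (fuel : Nat) : ∀ (r F X st s : Nat), go H fuel r F X st = s + 1 → Claim r F X := by
  induction fuel with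
  | zero =>
    intro r F X st s h
    exact absurd h (by show ¬ ((0 : Nat) = s + 1); omega)
  | succ fuel ih =>
    intro r F X st s h
    cases hmem : memH H r F X with
    | true => exact memH_spec H r F X hH hmem
    | false =>
      match r, h, hmem with
      | 0, h, hmem =>
        have e : go H (fuel + 1) 0 F X st = (Bool.rec
          (Nat.rec 0 (fun d _ =>
            Bool.rec 0
              (Bool.rec 0 (Nat.succ (rs st)) (chk0 F (masks d)))
              (six d)) (dg st))
            (Nat.succ st) (memH H 0 F X) : Nat) := rfl
        rw [e, hmem] at h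
        cases hm : dg st with
        | zero => rw [hm] at h; exact absurd h (by simp)
        | succ d =>
          rw [hm] at h
          have h1 : (Bool.rec 0
              (Bool.rec 0 (Nat.succ (rs st)) (chk0 F (masks d)))
              (six d) : Nat) = s + 1 := h
          cases hp : six d with
          | false => rw [hp] at h1; exact absurd h1 (by simp)
          | true =>
            rw [hp] at h1
            have h2 : (Bool.rec 0 (Nat.succ (rs st)) (chk0 F (masks d)) : Nat)
              = s + 1 := h1
            cases hk : chk0 F (masks d) with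
            | false => rw [hk] at h2; exact absurd h2 (by simp)
            | true => exact claim0 d F X (six_spec hp) hk
      | 1, h, hmem =>
        have e : go H (fuel + 1) 1 F X st = (Bool.rec
          (Nat.rec 0 (fun c _ => r1 20 F (Nat.succ c) st) (Nat.xor full (Nat.land full X)))
            (Nat.succ st) (memH H 1 F X) : Nat) := rfl
        rw [e, hmem] at h
        exact claim1 F X st s h
      | r + 2, h, hmem =>
        have e : go H (fuel + 1) (r + 2) F X st = (Bool.rec
          (Nat.rec 0 (fun d _ =>
                Bool.rec 0
                  (pass1 (go H fuel) (r + 2) F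
                    (fun X' s => pass2 (go H fuel) (r + 2) F X' (masks d) s)
                    (masks d) X (rs st))
                  (six d)) (dg st))
            (Nat.succ st) (memH H (r + 2) F X) : Nat) := rfl
        rw [e, hmem] at h
        cases hm : dg st with
        | zero => rw [hm] at h; exact absurd h (by simp)
        | succ d =>
          rw [hm] at h
          have h1 : (Bool.rec 0
                  (pass1 (go H fuel) (r + 2) F
                    (fun X' s => pass2 (go H fuel) (r + 2) F X' (masks d) s)
                    (masks d) X (rs st))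
                  (six d) : Nat) = s + 1 := h
          cases hp : six d with
          | false => rw [hp] at h1; exact absurd h1 (by simp)
          | true =>
            rw [hp] at h1
            have h2 : pass1 (go H fuel) (r + 1 + 1) F
                    (fun X' s => pass2 (go H fuel) (r + 2) F X' (masks d) s)
                    (masks d) X (rs st) = s + 1 := h1
            intro T hT
            by_contra hA
            obtain ⟨X', st', h3, hv⟩ := pass1_spec (go H fuel) (r + 1) F _ ih T hA
              (masks d) X _ s hT h2
            have h4 := pass2_spec (go H fuel) (r + 2) F X' ih T hA hv (masks d) st' s h3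
            obtain ⟨m, hm', hs⟩ := alive_or d (six_spec hp) T hA
            exact h4 m hm' hs

theorem go_claim (H : List (Nat × Nat × Nat)) (hH : ∀ h ∈ H, Claim h.1 h.2.1 h.2.2)
    (fuel r F X st : Nat) (h : Nat.beq (go H fuel r F X st) 0 = false) : Claim r F X := by
  have hne := beq_zero_false h
  obtain ⟨s, hs⟩ := Nat.exists_eq_succ_of_ne_zero hne
  exact go_spec H hH fuel r F X st s hs

theorem go_claim0 (fuel r F X st : Nat) (h : Nat.beq (go [] fuel r F X st) 0 = false) :
    Claim r F X := go_claim [] (fun h hh => by simp at hh) fuel r F X st h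

end Pool.Agent.W595.Bond
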